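import Pool.Agent.Q316.EM.Gram

/-!
# MP_767d8d_lc: mode 0 and mode 1 of two-component even matrix grammars differ

`LL` is the set of all words `x # y`, `y ≠ ε`, over two tracks of two letters such that `x` and `y`
have the same projections to both tracks. It is generated under mode 1, but not under mode 0.
The definitions of the grammars and of the families `EM false T` (mode 0), `EM true T` (mode 1) are
in `Pool/Agent/Q316/EM/Gram.lean`.
-/

set_option autoImplicit false

namespace Pool.Agent.Results.MP_767d8d_lc.ModesDiffer

open List Pool.Agent.Q316.EM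
open Relation (ReflTransGen)

/-- The letters `(t, ℓ)` of track `t`, and the separator `none`. -/
abbrev TT : Type := Option (Bool × Bool)

/-- the projection to track `t` -/
def pj (t : Bool) (w : List (Bool × Bool)) : List Bool :=
  w.filterMap fun s => if s.1 = t then some s.2 else none

/-- The words `x # y` such that `y` is not empty and `x` and `y` have the same projection to each
track. -/
def LL : Set (List TT) :=
  {w | ∃ x y : List (Bool × Bool), y ≠ [] ∧ (∀ t, pj t x = pj t y) ∧
    w = x.map some ++ none :: y.map some}

/-! ### The grammar for mode 1 -/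

/-- The rules; `none` in component 1 is the nonterminal `Z`, `some t` is `A_t`, and `()` is the
only nonterminal `Y` of component 2: `(Z, Y) → (A_t Z, Y)`, `(Z, Y) → (ε, Y)`,
`(A_t, Y) → (s, s Y)` and `(A_t, Y) → (s, s)` for the letters `s` of track `t`. -/
def RR : Set ((Option Bool × Unit) × List (Option Bool ⊕ TT) × List (Unit ⊕ TT)) :=
  (Set.range fun t : Bool => ((none, ()), [.inl (some t), .inl none], [.inl ()])) ∪
    {((none, ()), [], [.inl ()])} ∪
    (Set.range fun s : Bool × Bool => ((some s.1, ()), [.inr (some s)],
      [.inr (some s), .inl ()])) ∪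
    (Set.range fun s : Bool × Bool => ((some s.1, ()), [.inr (some s)], [.inr (some s)]))

/-- The grammar, with the start rule `(S) → (Z # Y)`. -/
def GG : EG TT where
  N1 := Option Bool
  N2 := Unit
  fin1 := inferInstance
  fin2 := inferInstance
  term := ∅
  start := {([.inl none], [.inr none, .inl ()])}
  rules := RR
  finT := Set.finite_empty
  finS := Set.finite_singleton _
  finR := (((Set.finite_range _).union (Set.finite_singleton _)).union
    (Set.finite_range _)).union (Set.finite_range _)
  hstart := by
    rintro v rfl
    exact ⟨⟨none, by simp⟩, ⟨(), by simp⟩⟩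

abbrev S : Type := Sy (Option Bool) Unit TT

def g : Bool × Option Bool → S
  | (t, none) => .a (some t)
  | (t, some l) => .t (some (t, l))

def F (P : List (Bool × Option Bool)) (z : Bool) (y : List (Bool × Bool)) (f : Bool) : List S :=
  P.map g ++ ((if z then [.a none] else []) ++
    (.t none :: (y.map (fun s => .t (some s)) ++ if f then [.b ()] else [])))

def prj (t : Bool) (P : List (Bool × Option Bool)) : List (Option Bool) :=
  P.filterMap fun s => if s.1 = t then some s.2 else none

def Inv (X : List S) : Prop :=
  ∃ P z y f, X = F P z y f ∧ (f = false → y ≠ []) ∧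
    ∀ t, ∃ m, prj t P = (pj t y).map some ++ replicate m none

theorem split_a {L1 L2 P R : List S} {A : Option Bool} (hR : Sy.a A ∉ R)
    (h : L1 ++ .a A :: L2 = P ++ R) : ∃ P2, P = L1 ++ .a A :: P2 ∧ L2 = P2 ++ R := by
  rcases List.append_eq_append_iff.1 h with ⟨as, h1, h2⟩ | ⟨bs, h1, h2⟩
  · cases as with
    | nil =>
      exfalso
      rw [nil_append] at h2
      exact hR (h2 ▸ by simp)
    | cons s as =>
      rw [cons_append, cons.injEq] at h2
      exact ⟨as, by rw [h1, h2.1], h2.2⟩
  · exact absurd (h2 ▸ by simp) hR

theorem map_g_split {P : List (Bool × Option Bool)} {L1 L2 : List S} {t : Bool}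
    (h : P.map g = L1 ++ .a (some t) :: L2) :
    ∃ P1 P2, P = P1 ++ (t, none) :: P2 ∧ P1.map g = L1 ∧ P2.map g = L2 := by
  obtain ⟨P1, P', rfl, h1, h2⟩ := List.map_eq_append_iff.1 h
  obtain ⟨s, P2, rfl, h3, h4⟩ := List.map_eq_cons_iff.1 h2
  rcases s with ⟨t', _ | l⟩
  · simp only [g, Sy.a.injEq, Option.some.injEq] at h3
    exact ⟨P1, P2, by rw [h3], h1, h4⟩
  · simp [g] at h3

theorem first_none {l1 l2 : List (Option Bool)} {s : List Bool} {m : ℕ} (h0 : none ∉ l1)
    (h : l1 ++ none :: l2 = s.map some ++ replicate m none) :
    l1 = s.map some ∧ ∃ m', l2 = replicate m' none := by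
  induction s generalizing l1 with
  | nil =>
    rw [map_nil, nil_append] at h
    cases l1 with
    | nil =>
      refine ⟨rfl, ?_⟩
      cases m with
      | zero => simp at h
      | succ m =>
        rw [replicate_succ, nil_append, cons.injEq] at h
        exact ⟨m, h.2⟩
    | cons o l1 =>
      exfalso
      cases m with
      | zero => simp at h
      | succ m =>
        rw [replicate_succ, cons_append, cons.injEq] at h
        exact h0 (by rw [h.1]; simp)
  | cons b s ih =>
    cases l1 with
    | nil => simp at h
    | cons o l1 =>
      rw [map_cons, cons_append, cons_append, cons.injEq] at h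
      obtain ⟨h1, h2⟩ := ih (fun hh => h0 (mem_cons_of_mem _ hh)) h.2
      exact ⟨by rw [map_cons, h.1, h1], h2⟩

theorem prj_append (t : Bool) (P Q : List (Bool × Option Bool)) :
    prj t (P ++ Q) = prj t P ++ prj t Q := by
  simp [prj]

theorem pj_append (t : Bool) (P Q : List (Bool × Bool)) :
    pj t (P ++ Q) = pj t P ++ pj t Q := by
  simp [pj]

theorem inv_start : Inv (word ([.inl none], [.inr none, .inl ()])) :=
  ⟨[], true, [], true, rfl, by simp, fun t => ⟨0, rfl⟩⟩

theorem z_split {P : List (Bool × Option Bool)} {z : Bool} {u P2 : List S}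
    (h : P.map g ++ (if z then [Sy.a none] else []) = u ++ .a none :: P2) :
    z = true ∧ u = P.map g ∧ P2 = [] := by
  have hn : ∀ A B, P.map g ≠ A ++ Sy.a none :: B := by
    intro A B h
    have : Sy.a none ∈ P.map g := by rw [h]; simp
    rw [mem_map] at this
    obtain ⟨⟨t, _ | l⟩, _, h⟩ := this <;> simp [g] at h
  cases z with
  | false =>
    exfalso
    simp only [Bool.false_eq_true, if_false, append_nil] at h
    exact hn _ _ h
  | true =>
    simp only [if_true] at h
    rcases List.append_eq_append_iff.1 h with ⟨as, h1, h2⟩ | ⟨bs, h1, h2⟩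
    · cases as with
      | nil =>
        rw [nil_append, cons.injEq] at h2
        exact ⟨rfl, by rw [h1]; simp, h2.2.symm⟩
      | cons s as =>
        exfalso
        have := congrArg List.length h2
        simp at this
    · cases bs with
      | nil =>
        rw [nil_append, cons.injEq] at h2
        exact ⟨rfl, by rw [h1]; simp, h2.2⟩
      | cons s bs =>
        exfalso
        rw [cons_append, cons.injEq] at h2
        exact hn _ _ (by rw [h1, ← h2.1])

theorem a_split {P : List (Bool × Option Bool)} {z : Bool} {u P2 : List S} {t : Bool}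
    (h : P.map g ++ (if z then [Sy.a none] else []) = u ++ .a (some t) :: P2) :
    ∃ P1 P3, P = P1 ++ (t, none) :: P3 ∧ P1.map g = u ∧
      P2 = P3.map g ++ (if z then [Sy.a none] else []) := by
  obtain ⟨Q, h1, h2⟩ := split_a (A := some t) (by cases z <;> simp) h.symm
  obtain ⟨P1, P3, rfl, h3, h4⟩ := map_g_split h1
  exact ⟨P1, P3, rfl, h3, by rw [h2, h4]⟩

theorem b_split (L1 L2 R : List S) (hR : Sy.b () ∉ R) (h : L1 ++ Sy.b () :: L2 = R ++ [.b ()]) :
    L2 = [] ∧ L1 = R := by
  rcases List.append_eq_append_iff.1 h with ⟨as, h1, h2⟩ | ⟨bs, h1, h2⟩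
  · cases as with
    | nil =>
      rw [append_nil] at h1
      rw [nil_append, cons.injEq] at h2
      exact ⟨h2.2, h1.symm⟩
    | cons s as =>
      exfalso
      rw [cons_append, cons.injEq] at h2
      exact hR (by rw [h1, ← h2.1]; simp)
  · cases bs with
    | nil =>
      rw [append_nil] at h1
      rw [nil_append, cons.injEq] at h2
      exact ⟨h2.2.symm, h1⟩
    | cons s bs =>
      exfalso
      have := congrArg List.length h2
      simp at this

theorem step_cases {X Y : List S} (h : GG.Step true X Y) :
    ∃ (A1 : Option Bool) (v1 : List (Option Bool ⊕ TT)) (v2 : List (Unit ⊕ TT))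
      (u1 w1 : List (Option Bool ⊕ TT)) (u2 w2 : List (Unit ⊕ TT)), ((A1, ()), v1, v2) ∈ RR ∧
      X = u1.map e1 ++ (.a A1 :: (w1.map e1 ++ u2.map e2)) ++ Sy.b () :: w2.map e2 ∧
      Y = u1.map e1 ++ (v1.map e1 ++ ((w1.map e1 ++ u2.map e2) ++ (v2.map e2 ++ w2.map e2))) ∧
      Sy.a A1 ∉ (u1.map e1 : List S) := by
  obtain ⟨A1, A2, v1, v2, u1, w1, u2, w2, hr, hx, hy, hlm⟩ := h
  refine ⟨A1, v1, v2, u1, w1, u2, w2, hr, ?_, ?_, ?_⟩
  · rw [hx]
    simp only [word, map_append, map_cons, append_assoc, cons_append]
    rfl
  · rw [hy]
    simp only [word, map_append, append_assoc]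
    rfl
  · intro hmem
    obtain ⟨r, hr1, hr2⟩ := List.mem_map.1 hmem
    rcases r with r | r
    · injection hr2 with h
      exact (hlm rfl).1 (h ▸ hr1)
    · simp [e1] at hr2

theorem inv_step {X Y : List S} (hX : Inv X) (h : GG.Step true X Y) : Inv Y := by
  obtain ⟨P, z, y, f, rfl, hf, hp⟩ := hX
  obtain ⟨A1, v1, v2, u1, w1, u2, w2, hr, hx, rfl, hlm⟩ := step_cases h
  have hnb : Sy.b () ∉ P.map g ++ ((if z then [Sy.a none] else []) ++
      (Sy.t none :: (y.map (fun s => (Sy.t (some s) : S))))) := by
    simp only [mem_append, mem_map, mem_cons, not_or]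
    refine ⟨?_, ?_, by simp, by simp⟩
    · rintro ⟨⟨t, _ | l⟩, _, h⟩ <;> simp [g] at h
    · cases z <;> simp
  have hft : f = true := by
    cases f with
    | true => rfl
    | false =>
      exfalso
      have h1 : F P z y false = P.map g ++ ((if z then [Sy.a none] else []) ++
        (Sy.t none :: (y.map (fun s => (Sy.t (some s) : S))))) := by simp [F]
      rw [h1] at hx
      apply hnb
      rw [hx]
      simp
  subst hft
  have h1 : F P z y true = (P.map g ++ ((if z then [Sy.a none] else []) ++
        (Sy.t none :: (y.map (fun s => (Sy.t (some s) : S)))))) ++ [.b ()] := by simp [F]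
  rw [h1] at hx
  obtain ⟨hw2, hx⟩ := b_split _ _ _ hnb hx.symm
  rw [hw2, append_nil]
  generalize w1.map e1 ++ u2.map e2 = R at hx ⊢
  clear h1 hnb hf hw2
  obtain ⟨P2, hP2, hR⟩ : ∃ P2, P.map g ++ (if z then [Sy.a none] else []) =
      u1.map e1 ++ .a A1 :: P2 ∧ R = P2 ++ (Sy.t none :: (y.map (fun s => .t (some s)))) := by
    apply split_a (by simp)
    rw [hx]; simp
  subst hR
  rcases hr with ((⟨t, ht⟩ | hr) | ⟨s, hs⟩) | ⟨s, hs⟩
  · -- a new A_t
    simp only [Prod.mk.injEq] at ht
    obtain ⟨⟨rfl, _⟩, rfl, rfl⟩ := ht
    obtain ⟨rfl, hu, rfl⟩ := z_split hP2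
    refine ⟨P ++ [(t, none)], true, y, true, ?_, by simp, ?_⟩
    · rw [hu]
      simp [F, g, e1, e2]
    · intro t'
      obtain ⟨m, hm⟩ := hp t'
      rw [prj_append, hm]
      by_cases htt : t = t'
      · refine ⟨m + 1, ?_⟩
        simp [prj, htt, replicate_succ']
      · exact ⟨m, by simp [prj, htt]⟩
  · -- Z is deleted
    simp only [Set.mem_singleton_iff, Prod.mk.injEq] at hr
    obtain ⟨⟨rfl, _⟩, rfl, rfl⟩ := hr
    obtain ⟨rfl, hu, rfl⟩ := z_split hP2
    refine ⟨P, false, y, true, ?_, by simp, hp⟩
    rw [hu]
    simp [F, e2]
  · simp only [Prod.mk.injEq] at hs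
    obtain ⟨⟨rfl, _⟩, rfl, rfl⟩ := hs
    obtain ⟨P1, P3, rfl, hu, rfl⟩ := a_split hP2
    refine ⟨P1 ++ (s.1, some s.2) :: P3, z, y ++ [s], true, ?_, by simp, ?_⟩
    · rw [← hu]
      simp [F, g, e1, e2]
    · intro t
      obtain ⟨m, hm⟩ := hp t
      by_cases htt : s.1 = t
      · subst htt
        have h2 : prj s.1 ((s.1, none) :: P3) = none :: prj s.1 P3 := by simp [prj]
        rw [prj_append, h2] at hm
        obtain ⟨h3, m', h4⟩ := first_none (by
          intro hmem
          apply hlm
          rw [← hu, mem_map]
          simp only [prj, mem_filterMap] at hmem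
          obtain ⟨⟨t', o⟩, h5, h6⟩ := hmem
          dsimp only at h6
          split_ifs at h6 with h7
          simp only [Option.some.injEq] at h6
          subst h6
          subst h7
          exact ⟨_, h5, rfl⟩) hm
        refine ⟨m', ?_⟩
        rw [prj_append, h3, pj_append]
        have h8 : prj s.1 ((s.1, some s.2) :: P3) = some s.2 :: prj s.1 P3 := by simp [prj]
        rw [h8, h4]
        simp [pj]
      · refine ⟨m, ?_⟩
        have h2 : prj t ((s.1, none) :: P3) = prj t P3 := by simp [prj, htt]
        have h3 : prj t ((s.1, some s.2) :: P3) = prj t P3 := by simp [prj, htt]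
        rw [prj_append, h2] at hm
        rw [prj_append, h3, hm, pj_append]
        simp [pj, htt]
  · simp only [Prod.mk.injEq] at hs
    obtain ⟨⟨rfl, _⟩, rfl, rfl⟩ := hs
    obtain ⟨P1, P3, rfl, hu, rfl⟩ := a_split hP2
    refine ⟨P1 ++ (s.1, some s.2) :: P3, z, y ++ [s], false, ?_, by simp, ?_⟩
    · rw [← hu]
      simp [F, g, e1, e2]
    · intro t
      obtain ⟨m, hm⟩ := hp t
      by_cases htt : s.1 = t
      · subst htt
        have h2 : prj s.1 ((s.1, none) :: P3) = none :: prj s.1 P3 := by simp [prj]
        rw [prj_append, h2] at hm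
        obtain ⟨h3, m', h4⟩ := first_none (by
          intro hmem
          apply hlm
          rw [← hu, mem_map]
          simp only [prj, mem_filterMap] at hmem
          obtain ⟨⟨t', o⟩, h5, h6⟩ := hmem
          dsimp only at h6
          split_ifs at h6 with h7
          simp only [Option.some.injEq] at h6
          subst h6
          subst h7
          exact ⟨_, h5, rfl⟩) hm
        refine ⟨m', ?_⟩
        rw [prj_append, h3, pj_append]
        have h8 : prj s.1 ((s.1, some s.2) :: P3) = some s.2 :: prj s.1 P3 := by simp [prj]
        rw [h8, h4]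
        simp [pj]
      · refine ⟨m, ?_⟩
        have h2 : prj t ((s.1, none) :: P3) = prj t P3 := by simp [prj, htt]
        have h3 : prj t ((s.1, some s.2) :: P3) = prj t P3 := by simp [prj, htt]
        rw [prj_append, h2] at hm
        rw [prj_append, h3, hm, pj_append]
        simp [pj, htt]

theorem inv_final {w : List TT} (h : Inv (w.map Sy.t)) : w ∈ LL := by
  obtain ⟨P, z, y, f, hF, hf, hp⟩ := h
  have hz : z = false := by
    cases z with
    | false => rfl
    | true =>
      exfalso
      have : (Sy.a none : S) ∈ w.map Sy.t := by rw [hF]; simp [F]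
      simp at this
  have hf' : f = false := by
    cases f with
    | false => rfl
    | true =>
      exfalso
      have : (Sy.b () : S) ∈ w.map Sy.t := by rw [hF]; simp [F]
      simp at this
  subst hz hf'
  have hP : ∃ x : List (Bool × Bool), P = x.map fun s => (s.1, some s.2) := by
    have hall : ∀ s ∈ P, ∃ l, s.2 = some l := by
      rintro ⟨t, _ | l⟩ hs
      · exfalso
        have : (Sy.a (some t) : S) ∈ w.map Sy.t := by
          rw [hF]
          unfold F
          rw [mem_append, mem_map]
          exact Or.inl ⟨_, hs, rfl⟩
        simp at this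
      · exact ⟨l, rfl⟩
    clear hF hp
    induction P with
    | nil => exact ⟨[], rfl⟩
    | cons s P ih =>
      obtain ⟨x, rfl⟩ := ih fun s hs => hall s (mem_cons_of_mem _ hs)
      obtain ⟨l, hl⟩ := hall s mem_cons_self
      exact ⟨(s.1, l) :: x, by simp [← hl]⟩
  obtain ⟨x, rfl⟩ := hP
  have hw : w = x.map some ++ none :: y.map some := by
    have hinj : Function.Injective (List.map (Sy.t : TT → S)) :=
      List.map_injective_iff.2 fun a b h => by simpa using h
    apply hinj
    rw [hF]
    have hg : (g ∘ fun s : Bool × Bool => (s.1, some s.2)) = (Sy.t ∘ some) := by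
      funext s; rfl
    simp only [F, map_map, hg, Bool.false_eq_true, if_false, append_nil, nil_append, map_append,
      map_cons]
    rfl
  refine ⟨x, y, hf rfl, fun t => ?_, hw⟩
  obtain ⟨m, hm⟩ := hp t
  have h1 : prj t (x.map fun s => (s.1, some s.2)) = (pj t x).map some := by
    clear hm hw hF hp
    induction x with
    | nil => rfl
    | cons s x ih =>
      by_cases h : s.1 = t
      · simp only [prj, map_cons, pj] at ih ⊢
        rw [filterMap_cons_some (b := some s.2) (by simp [h]),
          filterMap_cons_some (b := s.2) (by simp [h]), ih]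
        rfl
      · simp only [prj, map_cons, pj] at ih ⊢
        rw [filterMap_cons_none (by simp [h]), filterMap_cons_none (by simp [h]), ih]
  rw [h1] at hm
  cases m with
  | zero =>
    simp only [replicate_zero, append_nil] at hm
    exact List.map_injective_iff.2 (Option.some_injective _) hm
  | succ m =>
    exfalso
    have : none ∈ (pj t x).map some := by rw [hm]; simp
    simp at this

theorem gg_sub : GG.lang true ⊆ LL := by
  rintro w (hw | ⟨v, hv, hd⟩)
  · exact absurd hw (Set.notMem_empty _)
  · have hv' : v = ([.inl none], [.inr none, .inl ()]) := hv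
    subst hv'
    apply inv_final
    have : ∀ X, ReflTransGen (GG.Step true) (word ([.inl none], [.inr none, .inl ()])) X →
        Inv X := by
      intro X hX
      induction hX with
      | refl => exact inv_start
      | tail _ h ih => exact inv_step ih h
    exact this _ hd

/-! ### Completeness -/

abbrev wd (u : List (Option Bool ⊕ TT)) (v : List (Unit ⊕ TT)) : List S := word (u, v)

theorem step_of {A1 : Option Bool} {v1 : List (Option Bool ⊕ TT)} {v2 : List (Unit ⊕ TT)}
    (hr : ((A1, ()), v1, v2) ∈ RR) (u1 w1 : List (Option Bool ⊕ TT)) (u2 : List TT)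
    (hu : Sum.inl A1 ∉ u1) :
    GG.Step true (wd (u1 ++ Sum.inl A1 :: w1) (u2.map Sum.inr ++ [Sum.inl ()]))
      (wd (u1 ++ v1 ++ w1) (u2.map Sum.inr ++ v2)) :=
  ⟨A1, (), v1, v2, u1, w1, u2.map Sum.inr, [], hr, rfl, by rw [append_nil]; rfl,
    fun _ => ⟨hu, by simp⟩⟩

/-- the word of component 1: done letters and pending ones -/
def c1 (z : List (Bool × Bool × Bool)) : List (Option Bool ⊕ TT) :=
  z.map fun s => if s.1 then .inr (some s.2) else .inl (some s.2.1)

def pend (t : Bool) (z : List (Bool × Bool × Bool)) : List Bool :=
  z.filterMap fun s => if s.1 = false ∧ s.2.1 = t then some s.2.2 else none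

theorem c1_append (z z' : List (Bool × Bool × Bool)) : c1 (z ++ z') = c1 z ++ c1 z' := by
  simp [c1]

theorem pend_append (t : Bool) (z z' : List (Bool × Bool × Bool)) :
    pend t (z ++ z') = pend t z ++ pend t z' := by
  simp [pend]

theorem skeleton (x : List (Bool × Bool)) : ∀ x0 : List (Bool × Bool × Bool),
    ReflTransGen (GG.Step true) (wd (c1 x0 ++ [.inl none]) [.inr none, .inl ()])
      (wd (c1 (x0 ++ x.map fun s => (false, s)) ++ [.inl none]) [.inr none, .inl ()]) := by
  induction x with
  | nil => intro x0; simp; exact ReflTransGen.refl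
  | cons s x ih =>
    intro x0
    have h := step_of (A1 := none) (v1 := [.inl (some s.1), .inl none]) (v2 := [.inl ()])
      (Or.inl (Or.inl (Or.inl ⟨s.1, rfl⟩))) (c1 x0) [] [none] (by
        intro hmem
        unfold c1 at hmem
        rw [mem_map] at hmem
        obtain ⟨r, _, hr⟩ := hmem
        split_ifs at hr
        simp at hr)
    refine ReflTransGen.head h ?_
    have h2 := ih (x0 ++ [(false, s)])
    have e1 : c1 (x0 ++ [(false, s)]) ++ [.inl none] =
        c1 x0 ++ [.inl (some s.1), .inl none] ++ [] := by
      simp [c1]
    rw [e1] at h2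
    simpa using h2

theorem fill (y : List (Bool × Bool)) : ∀ (z : List (Bool × Bool × Bool)) (y0 : List TT),
    y ≠ [] → (∀ t, pend t z = pj t y) →
    ReflTransGen (GG.Step true) (wd (c1 z) (y0.map Sum.inr ++ [.inl ()]))
      (wd ((z.map fun s => some s.2).map Sum.inr) ((y0 ++ y.map some).map Sum.inr)) := by
  induction y with
  | nil => intro z y0 h; exact absurd rfl h
  | cons s y ih =>
    intro z y0 _ hp
    have h1 : pend s.1 z = s.2 :: pj s.1 y := by
      rw [hp]; simp [pj]
    unfold pend at h1
    rw [List.filterMap_eq_cons_iff] at h1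
    obtain ⟨z1, a, z2, rfl, h2, h3, h4⟩ := h1
    have ha : a = (false, s) := by
      split_ifs at h3 with h5
      · obtain ⟨a1, a2, a3⟩ := a
        simp only at h5
        simp only [Option.some.injEq] at h3
        rw [h5.1, h5.2, h3]
      
    subst ha
    have hnot : Sum.inl (some s.1) ∉ c1 z1 := by
      intro hmem
      unfold c1 at hmem
      rw [mem_map] at hmem
      obtain ⟨r, hr1, hr2⟩ := hmem
      have h5 := h2 r hr1
      split_ifs at hr2 with h6
      simp only [Sum.inl.injEq, Option.some.injEq] at hr2
      rw [if_pos ⟨by simpa using h6, hr2⟩] at h5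
      exact absurd h5 (by simp)
    have hc : c1 (z1 ++ (false, s) :: z2) = c1 z1 ++ .inl (some s.1) :: c1 z2 := by
      simp [c1]
    have hc' : c1 (z1 ++ (true, s) :: z2) = c1 z1 ++ [.inr (some s)] ++ c1 z2 := by
      simp [c1]
    have hp' : ∀ t, pend t (z1 ++ (true, s) :: z2) = pj t y := by
      intro t
      have h6 := hp t
      have h7 : pend t ((true, s) :: z2) = pend t z2 := by simp [pend]
      rw [pend_append, h7]
      by_cases htt : s.1 = t
      · have h8 : pend t ((false, s) :: z2) = s.2 :: pend t z2 := by simp [pend, htt]
        have h9 : pj t (s :: y) = s.2 :: pj t y := by simp [pj, htt]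
        have h10 : pend t z1 = [] := by
          subst htt
          unfold pend
          rw [List.filterMap_eq_nil_iff]
          exact h2
        rw [pend_append, h8, h9, h10, nil_append, cons.injEq] at h6
        rw [h10, nil_append, h6.2]
      · have h8 : pend t ((false, s) :: z2) = pend t z2 := by simp [pend, htt]
        have h9 : pj t (s :: y) = pj t y := by simp [pj, htt]
        rw [pend_append, h8, h9] at h6
        exact h6
    by_cases hy : y = []
    · subst hy
      have h := step_of (A1 := some s.1) (v1 := [.inr (some s)]) (v2 := [.inr (some s)])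
        (Or.inr ⟨s, rfl⟩) (c1 z1) (c1 z2) y0 hnot
      rw [hc]
      refine ReflTransGen.head h ?_
      rw [← hc']
      have hall : c1 (z1 ++ (true, s) :: z2) =
          ((z1 ++ (false, s) :: z2).map fun s => some s.2).map Sum.inr := by
        have hd : ∀ r ∈ z1 ++ (true, s) :: z2, r.1 = true := by
          intro r hr
          by_contra hcon
          have h5 : pend r.2.1 (z1 ++ (true, s) :: z2) = [] := by rw [hp']; rfl
          unfold pend at h5
          rw [List.filterMap_eq_nil_iff] at h5
          have := h5 r hr
          rw [if_pos ⟨by simpa using hcon, rfl⟩] at this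
          exact absurd this (by simp)
        have : c1 (z1 ++ (true, s) :: z2) =
            ((z1 ++ (true, s) :: z2).map fun s => some s.2).map Sum.inr := by
          unfold c1
          rw [map_map]
          apply map_congr_left
          intro r hr
          rw [if_pos (hd r hr)]
          rfl
        rw [this]
        simp
      rw [hall]
      simp only [map_append, map_cons, map_nil]
      exact ReflTransGen.refl
    · have h := step_of (A1 := some s.1) (v1 := [.inr (some s)]) (v2 := [.inr (some s), .inl ()])
        (Or.inl (Or.inr ⟨s, rfl⟩)) (c1 z1) (c1 z2) y0 hnot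
      rw [hc]
      refine ReflTransGen.head h ?_
      rw [← hc']
      have h5 := ih (z1 ++ (true, s) :: z2) (y0 ++ [some s]) hy hp'
      simp only [map_append, map_cons, map_nil, append_assoc, cons_append, nil_append,
        singleton_append] at h5 ⊢
      exact h5

theorem sub_gg : LL ⊆ GG.lang true := by
  rintro w ⟨x, y, hy, hp, rfl⟩
  refine Or.inr ⟨_, rfl, ?_⟩
  have h1 := skeleton x []
  simp only [nil_append] at h1
  have h2 := step_of (A1 := none) (v1 := []) (v2 := [.inl ()])
      (Or.inl (Or.inl (Or.inr rfl))) (c1 (x.map fun s => (false, s))) [] [none] (by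
        intro hmem
        unfold c1 at hmem
        rw [mem_map] at hmem
        obtain ⟨r, _, hr⟩ := hmem
        split_ifs at hr
        simp at hr)
  have h3 := fill y (x.map fun s => (false, s)) [none] hy (by
    intro t
    rw [← hp]
    unfold pend pj
    rw [filterMap_map]
    congr 1
    funext s
    simp)
  simp only [append_nil] at h2
  have h4 := (h1.tail h2).trans h3
  have h5 : ((x.map some ++ none :: y.map some).map Sy.t : List S) =
      wd (((x.map fun s => (false, s)).map fun s => some s.2).map Sum.inr)
        (([none] ++ y.map some).map Sum.inr) := by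
    simp only [word, map_map, map_append, map_cons, map_nil, cons_append, nil_append]
    rfl
  rw [← h5] at h4
  exact h4

/-! ### The regular set and the doubling -/

/-- A deterministic automaton for `(ac + bd)* # ab (caa + db)* c* d`, where `a = (0, 0)`,
`b = (0, 1)`, `c = (1, 0)`, `d = (1, 1)`; the state `11` is dead, `7` and `10` are final. -/
def dl : Fin 12 → TT → Fin 12
  | 0, some (false, false) => 1
  | 0, some (false, true) => 2
  | 0, none => 3
  | 1, some (true, false) => 0
  | 2, some (true, true) => 0
  | 3, some (false, false) => 4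
  | 4, some (false, true) => 5
  | 5, some (true, false) => 6
  | 5, some (true, true) => 7
  | 6, some (false, false) => 8
  | 6, some (true, false) => 9
  | 6, some (true, true) => 10
  | 7, some (false, true) => 5
  | 8, some (false, false) => 5
  | 9, some (true, false) => 9
  | 9, some (true, true) => 10
  | _, _ => 11

def Fin7 : Set (Fin 12) := {7, 10}

theorem dead (w : List TT) : w.foldl dl 11 = 11 := by
  induction w with
  | nil => rfl
  | cons s w ih =>
    have : dl 11 s = 11 := by
      rcases s with _ | ⟨_ | _, _ | _⟩ <;> rfl
    rw [foldl_cons, this, ih]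

theorem dead10 {w : List TT} (h : w.foldl dl 10 ∈ Fin7) : w = [] := by
  cases w with
  | nil => rfl
  | cons s w =>
    exfalso
    have : dl 10 s = 11 := by
      rcases s with _ | ⟨_ | _, _ | _⟩ <;> rfl
    rw [foldl_cons, this, dead] at h
    simp [Fin7] at h

/-- the doubling -/
def hh (u : List Bool) : List Bool := u.flatMap fun s => if s then [true] else [false, false]

def yy (u : List Bool) : List (Bool × Bool) :=
  u.flatMap fun s => if s then [(true, true), (false, true)] else
    [(true, false), (false, false), (false, false)]

def xx (v : List Bool) : List (Bool × Bool) := v.flatMap fun s => [(false, s), (true, s)]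

theorem st9 : ∀ {y : List (Bool × Bool)}, (y.map some).foldl dl 9 ∈ Fin7 →
    ∃ n, y = replicate n (true, false) ++ [(true, true)]
  | [], h => by simp [Fin7] at h
  | (true, false) :: y, h => by
    obtain ⟨n, rfl⟩ := st9 (y := y) h
    exact ⟨n + 1, rfl⟩
  | (true, true) :: y, h => by
    have h1 := dead10 (w := y.map some) h
    exact ⟨0, by simpa using h1⟩
  | (false, b) :: y, h => by
    exfalso
    have h1 : (y.map some).foldl dl 11 ∈ Fin7 := by cases b <;> exact h
    rw [dead] at h1
    simp [Fin7] at h1

theorem dead' {P : Prop} {y : List (Bool × Bool)} (h : (y.map some).foldl dl 11 ∈ Fin7) : P := by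
  exfalso
  rw [dead] at h
  simp [Fin7] at h

theorem st5 : ∀ {y : List (Bool × Bool)}, (y.map some).foldl dl 5 ∈ Fin7 →
    ∃ u n, y = yy u ++ (replicate n (true, false) ++ [(true, true)])
  | [], h => by simp [Fin7] at h
  | [(true, false)], h => by simp [Fin7, dl] at h
  | (true, false) :: (true, false) :: y, h => by
    obtain ⟨n, rfl⟩ := st9 (y := y) h
    exact ⟨[], n + 2, rfl⟩
  | (true, false) :: (true, true) :: y, h => by
    have h1 := dead10 (w := y.map some) h
    exact ⟨[], 1, by simpa [yy] using h1⟩
  | [(true, false), (false, false)], h => by simp [Fin7, dl] at h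
  | (true, false) :: (false, false) :: (false, false) :: y, h => by
    obtain ⟨u, n, rfl⟩ := st5 (y := y) h
    exact ⟨false :: u, n, by simp [yy]⟩
  | (true, false) :: (false, false) :: (false, true) :: y, h => dead' (y := y) h
  | (true, false) :: (false, false) :: (true, b) :: y, h => by
    cases b <;> exact dead' (y := y) h
  | (true, false) :: (false, true) :: y, h => dead' (y := y) h
  | [(true, true)], _ => ⟨[], 0, by simp [yy]⟩
  | (true, true) :: (false, true) :: y, h => by
    obtain ⟨u, n, rfl⟩ := st5 (y := y) h
    exact ⟨true :: u, n, by simp [yy]⟩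
  | (true, true) :: (false, false) :: y, h => dead' (y := y) h
  | (true, true) :: (true, b) :: y, h => by cases b <;> exact dead' (y := y) h
  | (false, b) :: y, h => by cases b <;> exact dead' (y := y) h

theorem st3 : ∀ {y : List (Bool × Bool)}, (y.map some).foldl dl 3 ∈ Fin7 →
    ∃ u n, y = (false, false) :: (false, true) ::
      (yy u ++ (replicate n (true, false) ++ [(true, true)]))
  | [], h => by simp [Fin7] at h
  | [(false, false)], h => by simp [Fin7, dl] at h
  | (false, false) :: (false, true) :: y, h => by
    obtain ⟨u, n, rfl⟩ := st5 (y := y) h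
    exact ⟨u, n, rfl⟩
  | (false, false) :: (false, false) :: y, h => dead' (y := y) h
  | (false, false) :: (true, b) :: y, h => by cases b <;> exact dead' (y := y) h
  | (false, true) :: y, h => dead' (y := y) h
  | (true, b) :: y, h => by cases b <;> exact dead' (y := y) h

theorem dead'' {P : Prop} {y : List TT} (h : y.foldl dl 11 ∈ Fin7) : P := by
  exfalso
  rw [dead] at h
  simp [Fin7] at h

theorem st0 : ∀ {x y : List (Bool × Bool)},
    (x.map some ++ none :: y.map some).foldl dl 0 ∈ Fin7 →
    (∃ v, x = xx v) ∧ (y.map some).foldl dl 3 ∈ Fin7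
  | [], y, h => ⟨⟨[], rfl⟩, h⟩
  | [(false, false)], y, h => dead' (y := y) h
  | [(false, true)], y, h => dead' (y := y) h
  | (false, false) :: (true, false) :: x, y, h => by
    obtain ⟨⟨v, rfl⟩, h2⟩ := st0 (x := x) (y := y) h
    exact ⟨⟨false :: v, rfl⟩, h2⟩
  | (false, true) :: (true, true) :: x, y, h => by
    obtain ⟨⟨v, rfl⟩, h2⟩ := st0 (x := x) (y := y) h
    exact ⟨⟨true :: v, rfl⟩, h2⟩
  | (false, false) :: (true, true) :: x, y, h =>
    dead'' (y := x.map some ++ none :: y.map some) h
  | (false, false) :: (false, b) :: x, y, h => by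
    cases b <;> exact dead'' (y := x.map some ++ none :: y.map some) h
  | (false, true) :: (true, false) :: x, y, h =>
    dead'' (y := x.map some ++ none :: y.map some) h
  | (false, true) :: (false, b) :: x, y, h => by
    cases b <;> exact dead'' (y := x.map some ++ none :: y.map some) h
  | (true, b) :: x, y, h => by
    cases b <;> exact dead'' (y := x.map some ++ none :: y.map some) h

/-! forward -/

theorem run_xx (v : List Bool) (r : List TT) :
    ((xx v).map some ++ r).foldl dl 0 = r.foldl dl 0 := by
  induction v with
  | nil => rfl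
  | cons s v ih =>
    cases s
    · exact ih
    · exact ih

theorem run_yy (u : List Bool) (r : List TT) :
    ((yy u).map some ++ r).foldl dl 5 = r.foldl dl 5 := by
  induction u with
  | nil => rfl
  | cons s u ih =>
    cases s
    · exact ih
    · exact ih

theorem run_c9 (n : ℕ) :
    ((replicate n ((true, false) : Bool × Bool) ++ [(true, true)]).map some).foldl dl 9 = 10 := by
  induction n with
  | zero => rfl
  | succ n ih => exact ih

theorem run_c (n : ℕ) :
    ((replicate n ((true, false) : Bool × Bool) ++ [(true, true)]).map some).foldl dl 5 ∈ Fin7 := by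
  rcases n with _ | _ | n
  · exact Or.inl rfl
  · exact Or.inr rfl
  · exact Or.inr (run_c9 n)

theorem pj_xx (t : Bool) (v : List Bool) : pj t (xx v) = v := by
  induction v with
  | nil => rfl
  | cons s v ih =>
    cases t <;> · simp only [pj, xx, flatMap_cons] at ih ⊢; simp [ih]

theorem pj_yy_false (u : List Bool) : pj false (yy u) = hh u := by
  induction u with
  | nil => rfl
  | cons s u ih =>
    cases s <;> · simp only [pj, yy, hh, flatMap_cons] at ih ⊢; simp [ih]

theorem pj_yy_true (u : List Bool) : pj true (yy u) = u := by
  induction u with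
  | nil => rfl
  | cons s u ih =>
    cases s <;> · simp only [pj, yy, flatMap_cons] at ih ⊢; simp [ih]

theorem pj_c (n : ℕ) : pj false (replicate n (true, false) ++ [(true, true)]) = [] ∧
    pj true (replicate n (true, false) ++ [(true, true)]) = replicate n false ++ [true] := by
  induction n with
  | zero => exact ⟨rfl, rfl⟩
  | succ n ih =>
    simp only [pj, replicate_succ, cons_append] at ih ⊢
    simp [ih.1, ih.2]

/-- trailing zeros are unique -/
theorem trail {A B : List Bool} {p q : ℕ}
    (h : A ++ true :: replicate p false = B ++ true :: replicate q false) : p = q ∧ A = B := by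
  have h1 := congrArg List.reverse h
  simp only [reverse_append, reverse_cons, reverse_replicate, append_assoc, singleton_append] at h1
  have key : ∀ (p q : ℕ) (A B : List Bool),
      replicate p false ++ true :: A = replicate q false ++ true :: B → p = q ∧ A = B := by
    intro p
    induction p with
    | zero =>
      intro q A B h
      cases q with
      | zero => simpa using h
      | succ q => simp [replicate_succ] at h
    | succ p ih =>
      intro q A B h
      cases q with
      | zero => simp [replicate_succ] at h
      | succ q =>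
        simp only [replicate_succ, cons_append, cons.injEq, true_and] at h
        obtain ⟨h1, h2⟩ := ih q A B h
        exact ⟨by rw [h1], h2⟩
  obtain ⟨h2, h3⟩ := key _ _ _ _ h1
  exact ⟨h2, reverse_injective h3⟩

theorem decomp (l : List Bool) : ∃ u m, l = u ++ replicate m false ∧
    (u = [] ∨ ∃ u', u = u' ++ [true]) := by
  induction l using List.reverseRecOn with
  | nil => exact ⟨[], 0, rfl, Or.inl rfl⟩
  | append_singleton l s ih =>
    cases s with
    | true => exact ⟨l ++ [true], 0, by simp, Or.inr ⟨l, rfl⟩⟩
    | false =>
      obtain ⟨u, m, rfl, h⟩ := ih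
      exact ⟨u, m + 1, by rw [replicate_succ', append_assoc], h⟩

theorem hh_append (u v : List Bool) : hh (u ++ v) = hh u ++ hh v := by
  simp [hh]

theorem hh_zeros (m : ℕ) : hh (replicate m false) = replicate (2 * m) false := by
  induction m with
  | zero => rfl
  | succ m ih =>
    have : hh (replicate (m + 1) false) = [false, false] ++ hh (replicate m false) := rfl
    rw [this, ih]
    have : 2 * (m + 1) = 2 * m + 1 + 1 := by ring
    rw [this, replicate_succ, replicate_succ]
    rfl

theorem sol (N : ℕ) : ∀ (u : List Bool) (n : ℕ), u.length ≤ N →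
    false :: true :: hh u = u ++ (replicate n false ++ [true]) → ∃ k, n = 2 ^ k := by
  induction N with
  | zero =>
    intro u n hu h
    have : u = [] := by simpa using hu
    subst this
    rcases n with _ | _ | n
    · simp [hh] at h
    · exact ⟨0, rfl⟩
    · simp [hh, replicate_succ] at h
  | succ N ih =>
    intro u n hu h
    rcases List.eq_nil_or_concat' u with rfl | ⟨u1, s, rfl⟩
    · rcases n with _ | _ | n
      · simp [hh] at h
      · exact ⟨0, rfl⟩
      · simp [hh, replicate_succ] at h
    · cases s with
      | false =>
        exfalso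
        rw [hh_append] at h
        have h1 := congrArg List.getLast? h
        have e1 : false :: true :: (hh u1 ++ hh [false]) =
            (false :: true :: (hh u1 ++ [false])) ++ [false] := by simp [hh]
        have e2 : u1 ++ [false] ++ (replicate n false ++ [true]) =
            (u1 ++ [false] ++ replicate n false) ++ [true] := by simp
        rw [e1, e2, getLast?_concat, getLast?_concat] at h1
        simp at h1
      | true =>
        have e1 : false :: true :: hh (u1 ++ [true]) = (false :: true :: hh u1) ++ [true] := by
          rw [hh_append]; rfl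
        have e2 : u1 ++ [true] ++ (replicate n false ++ [true]) =
            (u1 ++ true :: replicate n false) ++ [true] := by simp
        rw [e1, e2] at h
        have h1 := List.append_cancel_right h
        obtain ⟨u0, m, rfl, h0⟩ := decomp u1
        rw [hh_append, hh_zeros] at h1
        have h2 : ∃ B, false :: true :: hh u0 = B ++ [true] := by
          rcases h0 with rfl | ⟨u', rfl⟩
          · exact ⟨[false], rfl⟩
          · exact ⟨false :: true :: hh u', by rw [hh_append]; rfl⟩
        obtain ⟨B, hB⟩ := h2
        have h3 : B ++ true :: replicate (2 * m) false =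
            u0 ++ replicate m false ++ true :: replicate n false := by
          rw [← h1]
          have : B ++ true :: replicate (2 * m) false = (B ++ [true]) ++ replicate (2 * m) false := by
            simp
          rw [this, ← hB]
          simp
        obtain ⟨h4, h5⟩ := trail h3
        obtain ⟨k, hk⟩ := ih u0 m (by
          simp only [length_append, length_cons, length_nil] at hu
          omega) (by rw [hB, h5]; simp)
        exact ⟨k + 1, by rw [← h4, hk, pow_succ]; ring⟩

theorem exists_sol (k : ℕ) :
    ∃ u : List Bool, false :: true :: hh u = u ++ (replicate (2 ^ k) false ++ [true]) := by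
  induction k with
  | zero => exact ⟨[], rfl⟩
  | succ k ih =>
    obtain ⟨u, hu⟩ := ih
    refine ⟨u ++ (replicate (2 ^ k) false ++ [true]), ?_⟩
    rw [hh_append, hh_append, hh_zeros, ← hu]
    have : 2 * 2 ^ k = 2 ^ (k + 1) := by ring
    rw [this]
    simp [hh]

theorem count_hh (u : List Bool) : (hh u).count false = 2 * u.count false := by
  induction u with
  | nil => rfl
  | cons s u ih =>
    have : hh (s :: u) = (if s then [true] else [false, false]) ++ hh u := rfl
    rw [this, count_append, ih]
    cases s <;> simp <;> ring

/-- the weight counts the letter `c` -/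
def wt : TT → ℕ
  | some (true, false) => 1
  | _ => 0

theorem wt_pj (w : List (Bool × Bool)) : ((w.map some).map wt).sum = (pj true w).count false := by
  induction w with
  | nil => rfl
  | cons s w ih =>
    rcases s with ⟨_ | _, _ | _⟩ <;>
      · simp only [map_cons, sum_cons, pj] at ih ⊢
        rw [ih]
        simp [wt, add_comm]

/-- the weights of the words of `LL` in the regular set are the numbers `2 (2 · 2ᵏ - 1)` -/
theorem weights (n : ℕ) : (∃ w ∈ LL, w.foldl dl 0 ∈ Fin7 ∧ (w.map wt).sum = n) ↔
    ∃ k : ℕ, n + 2 = 4 * 2 ^ k := by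
  constructor
  · rintro ⟨w, ⟨x, y, _, hp, rfl⟩, hF, rfl⟩
    obtain ⟨⟨v, rfl⟩, h3⟩ := st0 hF
    obtain ⟨u, m, rfl⟩ := st3 h3
    have h1 := hp false
    have h2 := hp true
    have e1 : pj false ((false, false) :: (false, true) ::
        (yy u ++ (replicate m (true, false) ++ [(true, true)]))) = false :: true :: hh u := by
      have : pj false ((false, false) :: (false, true) ::
        (yy u ++ (replicate m (true, false) ++ [(true, true)]))) = false :: true ::
        pj false (yy u ++ (replicate m (true, false) ++ [(true, true)])) := rfl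
      rw [this, pj_append, (pj_c m).1, append_nil, pj_yy_false]
    have e2 : pj true ((false, false) :: (false, true) ::
        (yy u ++ (replicate m (true, false) ++ [(true, true)]))) =
        u ++ (replicate m false ++ [true]) := by
      have : pj true ((false, false) :: (false, true) ::
        (yy u ++ (replicate m (true, false) ++ [(true, true)]))) =
        pj true (yy u ++ (replicate m (true, false) ++ [(true, true)])) := rfl
      rw [this, pj_append, (pj_c m).2, pj_yy_true]
    rw [pj_xx, e1] at h1
    rw [pj_xx, e2] at h2
    have h4 : false :: true :: hh u = u ++ (replicate m false ++ [true]) := by rw [← h1, h2]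
    obtain ⟨k, rfl⟩ := sol u.length u m le_rfl h4
    have h5 := congrArg (List.count false) h4
    simp only [count_cons, count_append, count_hh, count_replicate_self, count_nil] at h5
    have h6 : u.count false + 1 = 2 ^ k := by
      simp at h5
      omega
    refine ⟨k, ?_⟩
    rw [map_append, sum_append, map_cons, sum_cons, wt_pj, wt_pj, pj_xx, e2, h2]
    simp only [count_append, count_replicate_self]
    have h7 : wt none = 0 := rfl
    have h8 : [true].count false = 0 := rfl
    rw [h7, h8]
    omega
  · rintro ⟨k, hk⟩
    obtain ⟨u, hu⟩ := exists_sol k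
    have e1 : pj false ((false, false) :: (false, true) ::
        (yy u ++ (replicate (2 ^ k) (true, false) ++ [(true, true)]))) =
        false :: true :: hh u := by
      have : pj false ((false, false) :: (false, true) ::
        (yy u ++ (replicate (2 ^ k) (true, false) ++ [(true, true)]))) = false :: true ::
        pj false (yy u ++ (replicate (2 ^ k) (true, false) ++ [(true, true)])) := rfl
      rw [this, pj_append, (pj_c _).1, append_nil, pj_yy_false]
    have e2 : pj true ((false, false) :: (false, true) ::
        (yy u ++ (replicate (2 ^ k) (true, false) ++ [(true, true)]))) =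
        u ++ (replicate (2 ^ k) false ++ [true]) := by
      have : pj true ((false, false) :: (false, true) ::
        (yy u ++ (replicate (2 ^ k) (true, false) ++ [(true, true)]))) =
        pj true (yy u ++ (replicate (2 ^ k) (true, false) ++ [(true, true)])) := rfl
      rw [this, pj_append, (pj_c _).2, pj_yy_true]
    refine ⟨_, ⟨xx (false :: true :: hh u), (false, false) :: (false, true) ::
        (yy u ++ (replicate (2 ^ k) (true, false) ++ [(true, true)])), by simp, ?_, rfl⟩, ?_, ?_⟩
    · intro t
      cases t
      · rw [pj_xx, e1]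
      · rw [pj_xx, e2, hu]
    · rw [run_xx]
      have : (none :: ((false, false) :: (false, true) ::
        (yy u ++ (replicate (2 ^ k) (true, false) ++ [(true, true)]))).map some).foldl dl 0 =
        ((yy u).map some ++
          ((replicate (2 ^ k) (true, false) ++ [(true, true)]).map some)).foldl dl 5 := by
        rw [← map_append]
        rfl
      rw [this, run_yy]
      exact run_c _
    · have h5 := congrArg (List.count false) hu
      simp only [count_cons, count_append, count_hh, count_replicate_self, count_nil] at h5
      have h6 : u.count false + 1 = 2 ^ k := by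
        simp at h5
        omega
      rw [map_append, sum_append, map_cons, sum_cons, wt_pj, wt_pj, pj_xx, e2, hu]
      simp only [count_append, count_replicate_self]
      have h7 : wt none = 0 := rfl
      have h8 : [true].count false = 0 := rfl
      rw [h7, h8]
      omega

theorem not_mode0 : LL ∉ EM false TT := by
  rintro ⟨G, hG⟩
  have hset : {n : ℕ | ∃ w ∈ G.lang false, w.foldl dl 0 ∈ Fin7 ∧ (w.map wt).sum = n} =
      {n | ∃ k : ℕ, n + 2 = 4 * 2 ^ k} := by
    ext n
    rw [← hG]
    exact weights n
  have hinf : {n : ℕ | ∃ k : ℕ, n + 2 = 4 * 2 ^ k}.Infinite := by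
    refine Set.infinite_of_injective_forall_mem (f := fun k : ℕ => 4 * 2 ^ k - 2) ?_ ?_
    · intro i j hij
      have hi : 1 ≤ 2 ^ i := Nat.one_le_two_pow
      have hj : 1 ≤ 2 ^ j := Nat.one_le_two_pow
      have : 2 ^ i = 2 ^ j := by
        dsimp only at hij
        omega
      exact Nat.pow_right_injective le_rfl this
    · intro k
      have hi : 1 ≤ 2 ^ k := Nat.one_le_two_pow
      exact ⟨k, by omega⟩
  obtain ⟨u, v, hv, hk⟩ := mode0 G dl wt 0 Fin7 (by rw [hset]; exact hinf)
  rw [hset] at hk
  obtain ⟨i, hi⟩ := hk (v + 1)
  obtain ⟨j, hj⟩ := hk (v + 2)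
  have h1 : (v + 2) * v = (v + 1) * v + v := by ring
  have h2 : v ≤ (v + 1) * v := Nat.le_mul_of_pos_left v (by omega)
  rcases lt_or_ge i j with hij | hij
  · have h3 : 2 ^ (i + 1) ≤ 2 ^ j := Nat.pow_le_pow_right (by omega) hij
    rw [pow_succ] at h3
    omega
  · have h3 : 2 ^ j ≤ 2 ^ i := Nat.pow_le_pow_right (by omega) hij
    omega

/-- **Mode 0 and mode 1 differ**: `LL` is generated by a two-component even matrix grammar under
mode 1, but by none under mode 0. -/
theorem result : LL ∈ EM true TT ∧ LL ∉ EM false TT ∧ EM false TT ≠ EM true TT := by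
  have h1 : LL ∈ EM true TT := ⟨GG, Set.Subset.antisymm sub_gg gg_sub⟩
  exact ⟨h1, not_mode0, fun h => not_mode0 (h ▸ h1)⟩

end Pool.Agent.Results.MP_767d8d_lc.ModesDiffer
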